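import Pool.Agent.H144R3.CBFinal

namespace Pool.Agent.Results.MP_8c97d4_nt.SunOne

open Finset Pool.Agent.H144R3.CB

/-- `A N = ∑_{k=0}^{N-1} 2^{-k} C(2k,k)`, a rational number. -/
def A (N : ℕ) : ℚ := ∑ k ∈ range N, ((2 * k).choose k : ℚ) / 2 ^ k

/-- `a ≡ b (mod p^m)` for rational numbers: `(a - b) / p^m` has denominator prime to `p`. -/
def CongMod (p m : ℕ) (a b : ℚ) : Prop := Nat.Coprime p ((a - b) / (p : ℚ) ^ m).den

theorem c4_eq (p : ℕ) (hp : Odd p) : c4 p = jacobiSym (-1) p := by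
  rw [jacobiSym.at_neg_one hp]
  have h : ∀ a : ZMod 4, f4 a = ZMod.χ₄ a := by decide
  simp only [c4]
  rw [h]
  push_cast
  rfl

/-- **Sun's conjecture, first part**: for every prime `p > 2` and every `r ≥ 1`,
`A(p^r) ≡ (-1/p) A(p^(r-1)) (mod p^(2r))`. -/
theorem result (p : ℕ) (hp : p.Prime) (h2 : 2 < p) (r : ℕ) (hr : 1 ≤ r) :
    CongMod p (2 * r) (A (p ^ r)) ((jacobiSym (-1) p : ℚ) * A (p ^ (r - 1))) := by
  have : Fact p.Prime := ⟨hp⟩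
  obtain ⟨r, rfl⟩ : ∃ s, r = s + 1 := ⟨r - 1, by omega⟩
  rw [Nat.add_sub_cancel]
  have hp2 : p ≠ 2 := by omega
  obtain ⟨z, hz⟩ := SS_four p hp2 r
  have hA : ∀ n, 2 * (SS c4 n : ℚ) = 2 ^ n * A n := SS_four_eq
  rw [c4_eq p (hp.odd_of_ne_two hp2)] at hz
  have hle : p ^ r ≤ p ^ (r + 1) := Nat.pow_le_pow_right hp.pos (by omega)
  have hz' : (SS c4 (p ^ (r + 1)) : ℚ) - (jacobiSym (-1) p : ℚ) * 2 ^ (p ^ (r + 1) - p ^ r) *
      (SS c4 (p ^ r) : ℚ) = (p : ℚ) ^ (2 * (r + 1)) * z := by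
    exact_mod_cast hz
  have h2n : (2 : ℚ) ^ (p ^ (r + 1)) ≠ 0 := by positivity
  have hpow : (2 : ℚ) ^ (p ^ (r + 1)) = 2 ^ (p ^ (r + 1) - p ^ r) * 2 ^ (p ^ r) := by
    rw [← pow_add]; congr 1; omega
  have hmain : 2 ^ (p ^ (r + 1)) * (A (p ^ (r + 1)) - (jacobiSym (-1) p : ℚ) * A (p ^ r)) =
      (p : ℚ) ^ (2 * (r + 1)) * (2 * z) := by
    have h1 := hA (p ^ (r + 1))
    have h3 := hA (p ^ r)
    linear_combination 2 * hz' - h1 + (jacobiSym (-1) p : ℚ) * 2 ^ (p ^ (r + 1) - p ^ r) * h3 -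
      (jacobiSym (-1) p : ℚ) * A (p ^ r) * hpow
  have hp0 : (p : ℚ) ^ (2 * (r + 1)) ≠ 0 := by
    have : (p : ℚ) ≠ 0 := by exact_mod_cast hp.ne_zero
    positivity
  have hq : (A (p ^ (r + 1)) - (jacobiSym (-1) p : ℚ) * A (p ^ r)) / (p : ℚ) ^ (2 * (r + 1)) =
      ((2 * z : ℤ) : ℚ) / ((2 ^ (p ^ (r + 1)) : ℤ) : ℚ) := by
    rw [div_eq_div_iff hp0 (by exact_mod_cast h2n)]
    push_cast
    linear_combination hmain
  unfold CongMod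
  rw [hq]
  have hden : ((((2 * z : ℤ) : ℚ) / ((2 ^ (p ^ (r + 1)) : ℤ) : ℚ)).den : ℤ) ∣ 2 ^ (p ^ (r + 1)) := by
    have := Rat.den_dvd (2 * z) (2 ^ (p ^ (r + 1)))
    rwa [Rat.divInt_eq_div] at this
  have hden' : ((((2 * z : ℤ) : ℚ) / ((2 ^ (p ^ (r + 1)) : ℤ) : ℚ)).den) ∣ 2 ^ (p ^ (r + 1)) := by
    exact_mod_cast hden
  refine Nat.Coprime.coprime_dvd_right hden' ?_
  apply Nat.Coprime.pow_right
  exact (Nat.coprime_primes hp Nat.prime_two).2 hp2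

end Pool.Agent.Results.MP_8c97d4_nt.SunOne
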