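import Pool.Agent.H144R3.CBFinal

namespace Pool.Agent.Results.MP_8c97d4_nt.SunTwo

open Finset Pool.Agent.H144R3.CB

/-- `B N = ∑_{k=0}^{N-1} C(2k,k)`. -/
def B (N : ℕ) : ℤ := ∑ k ∈ range N, ((2 * k).choose k : ℤ)

/-- The Kronecker symbol `(-3/p)` of a prime `p`: it is `-1` for `p = 2`, and the Legendre symbol
for odd `p` (so `0` for `p = 3`). -/
def kron (p : ℕ) : ℤ := if p = 2 then -1 else jacobiSym (-3) p

theorem c3_eq_aux (p : ℕ) : jacobiSym p 3 = c3 p := by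
  rw [jacobiSym.mod_left]
  have h : c3 p = c3 ((p : ℤ) % (3 : ℕ)) := by
    simp only [c3]
    congr 1
    rw [ZMod.intCast_eq_intCast_iff_dvd_sub]
    have := Int.emod_add_mul_ediv (p : ℤ) (3 : ℕ)
    exact ⟨-((p : ℤ) / (3 : ℕ)), by linarith⟩
  rw [h]
  have h1 : 0 ≤ (p : ℤ) % (3 : ℕ) := Int.emod_nonneg _ (by norm_num)
  have h2 : (p : ℤ) % (3 : ℕ) < (3 : ℕ) := Int.emod_lt_of_pos _ (by norm_num)
  generalize (p : ℤ) % (3 : ℕ) = a at h1 h2
  push_cast at h2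
  interval_cases a
  · rw [jacobiSym.zero_left (by norm_num)]; decide
  · rw [jacobiSym.one_left]; decide
  · norm_num; decide

theorem kron_eq (p : ℕ) (hp : p.Prime) : kron p = c3 p := by
  unfold kron
  split_ifs with h
  · subst h; decide
  · have hodd : Odd p := hp.odd_of_ne_two h
    have e : (-3 : ℤ) = (-1) * ((3 : ℕ) : ℤ) := by norm_num
    rw [e, jacobiSym.mul_left, jacobiSym.quadratic_reciprocity' (by decide) hodd, qrSign,
      jacobiSym.at_neg_one hodd, ← c3_eq_aux]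
    have h1 : ∀ a : ZMod 4, (a = 1 ∨ a = 3) → (ZMod.χ₄ a = 1 ∨ ZMod.χ₄ a = -1) := by decide
    have h2 : (p : ZMod 4) = 1 ∨ (p : ZMod 4) = 3 := by
      obtain ⟨t, rfl⟩ := hodd
      have h3 : ∀ a : ZMod 4, 2 * a + 1 = 1 ∨ 2 * a + 1 = 3 := by decide
      push_cast
      exact h3 t
    rcases h1 _ h2 with h3 | h3
    · rw [h3, jacobiSym.one_left]; ring
    · rw [h3]
      have h4 : jacobiSym (-1) 3 = -1 := by norm_num
      rw [h4]; ring

/-- **Sun's conjecture, second part**: for every prime `p` and every `r ≥ 1`,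
`B(p^r) ≡ (-3/p) B(p^(r-1)) (mod p^(2r))`. -/
theorem result (p : ℕ) (hp : p.Prime) (r : ℕ) (hr : 1 ≤ r) :
    B (p ^ r) ≡ kron p * B (p ^ (r - 1)) [ZMOD (p : ℤ) ^ (2 * r)] := by
  have : Fact p.Prime := ⟨hp⟩
  obtain ⟨r, rfl⟩ : ∃ s, r = s + 1 := ⟨r - 1, by omega⟩
  rw [Nat.add_sub_cancel]
  have hB : ∀ n, SS c3 n = B n := SS_three_eq
  apply Int.ModEq.symm
  rw [Int.modEq_iff_dvd, kron_eq p hp, ← hB, ← hB]
  by_cases h2 : p = 2
  · subst h2
    have h := SS_two r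
    have h1 : c3 ((2 : ℕ) : ℤ) = -1 := by decide
    rw [h1]
    have e : SS c3 (2 ^ (r + 1)) - -1 * SS c3 (2 ^ r) = SS c3 (2 ^ (r + 1)) + SS c3 (2 ^ r) := by ring
    rw [e]
    exact_mod_cast h
  · exact SS_three p h2 r

end Pool.Agent.Results.MP_8c97d4_nt.SunTwo
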